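import Mathlib

/-!
A Hartogs domain in `ℂ²` whose square integrable holomorphic functions are the multiples of the
second coordinate.
-/

set_option autoImplicit false

namespace Pool.Agent.H774Z.Berg

open Filter Topology Set Metric

/-- radius in the first variable of the `n`-th flat polydisc -/
noncomputable def rho (n : ℕ) : ℝ := Real.exp (7 * (n : ℝ) ^ 2 - n)
/-- radius in the second variable of the `n`-th flat polydisc -/
noncomputable def rr (n : ℕ) : ℝ := Real.exp (-4 * (n : ℝ) ^ 2)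
/-- radius in the first variable of the `n`-th tall polydisc -/
noncomputable def eps (n : ℕ) : ℝ := Real.exp (-5 * (n : ℝ) ^ 2 - n)
/-- radius in the second variable of the `n`-th tall polydisc -/
noncomputable def hh (n : ℕ) : ℝ := Real.exp (2 * (n : ℝ) ^ 2)
/-- the centres of the tall polydiscs -/
noncomputable def ctr (k : ℕ) : ℂ := 1 / ((k : ℂ) + 1)

/-- flat polydisc -/
def flat (n : ℕ) : Set (ℂ × ℂ) := ball 0 (rho n) ×ˢ ball 0 (rr n)
/-- tall polydisc -/
def tall (n : ℕ) : Set (ℂ × ℂ) := ball (ctr (Nat.unpair n).1) (eps n) ×ˢ ball 0 (hh n)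
/-- the domain -/
def Om : Set (ℂ × ℂ) := (⋃ n, flat n) ∪ ⋃ n, tall n

theorem rho_pos (n : ℕ) : 0 < rho n := Real.exp_pos _
theorem rr_pos (n : ℕ) : 0 < rr n := Real.exp_pos _
theorem eps_pos (n : ℕ) : 0 < eps n := Real.exp_pos _
theorem hh_pos (n : ℕ) : 0 < hh n := Real.exp_pos _

theorem flat_subset (n : ℕ) : flat n ⊆ Om := fun _ h => Or.inl (mem_iUnion.2 ⟨n, h⟩)
theorem tall_subset (n : ℕ) : tall n ⊆ Om := fun _ h => Or.inr (mem_iUnion.2 ⟨n, h⟩)

theorem isOpen_Om : IsOpen Om :=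
  (isOpen_iUnion fun _ => isOpen_ball.prod isOpen_ball).union
    (isOpen_iUnion fun _ => isOpen_ball.prod isOpen_ball)

theorem quad_tendsto {a : ℝ} (ha : 0 < a) (b : ℝ) :
    Tendsto (fun n : ℕ => a * (n : ℝ) ^ 2 - b * n) atTop atTop := by
  have h1 : Tendsto (fun n : ℕ => a * (n : ℝ) - b) atTop atTop :=
    tendsto_atTop_add_const_right _ (-b) (tendsto_natCast_atTop_atTop.const_mul_atTop ha)
  have h2 := (tendsto_natCast_atTop_atTop (R := ℝ)).atTop_mul_atTop₀ h1
  refine h2.congr fun n => ?_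
  ring

theorem exp_quad_tendsto {a : ℝ} (ha : 0 < a) (b : ℝ) :
    Tendsto (fun n : ℕ => Real.exp (a * (n : ℝ) ^ 2 - b * n)) atTop atTop :=
  Real.tendsto_exp_atTop.comp (quad_tendsto ha b)

theorem rho_tendsto : Tendsto rho atTop atTop := by
  refine (exp_quad_tendsto (a := 7) (by norm_num) 1).congr fun n => ?_
  simp [rho]

theorem hh_tendsto : Tendsto hh atTop atTop := by
  refine (exp_quad_tendsto (a := 2) (by norm_num) 0).congr fun n => ?_
  simp [hh]

theorem pair_tendsto (k : ℕ) : Tendsto (fun m => Nat.pair k m) atTop atTop :=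
  tendsto_atTop_mono (fun m => Nat.right_le_pair k m) tendsto_id

theorem axis_mem (z : ℂ) : (z, (0 : ℂ)) ∈ Om := by
  obtain ⟨n, hn⟩ := (rho_tendsto.eventually_gt_atTop ‖z‖).exists
  exact flat_subset n ⟨by simpa using hn, by simpa using rr_pos n⟩

theorem fibre_mem (k : ℕ) (w : ℂ) : (ctr k, w) ∈ Om := by
  obtain ⟨m, hm⟩ := ((hh_tendsto.comp (pair_tendsto k)).eventually_gt_atTop ‖w‖).exists
  refine tall_subset (Nat.pair k m) ⟨?_, by simpa using hm⟩
  simpa [Nat.unpair_pair] using eps_pos _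

theorem zero_of_bound {x : ℝ} (hx : 0 ≤ x) {M : ℝ} {t : ℕ → ℝ} (ht : Tendsto t atTop atTop)
    (h : ∀ᶠ n in atTop, x * t n ≤ M) : x = 0 := by
  by_contra h0
  have hpos : 0 < x := lt_of_le_of_ne hx (Ne.symm h0)
  have h1 := (ht.const_mul_atTop hpos).eventually_gt_atTop M
  obtain ⟨n, h2, h3⟩ := (h.and h1).exists
  exact absurd h2 (not_le.2 h3)

section
variable {G : ℂ × ℂ → ℂ} (hG : DifferentiableOn ℂ G Om) {M : ℝ}
  (hM : ∀ (a b : ℂ) (ρ r : ℝ), 0 < ρ → 0 < r → ball a ρ ×ˢ ball b r ⊆ Om →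
    ‖G (a, b)‖ * (ρ * r) ≤ M)

include hG in
theorem diffAt {p : ℂ × ℂ} (hp : p ∈ Om) : DifferentiableAt ℂ G p :=
  hG.differentiableAt (isOpen_Om.mem_nhds hp)

include hG in
theorem diff_snd {z w : ℂ} (hp : (z, w) ∈ Om) : DifferentiableAt ℂ (fun s => G (z, s)) w :=
  (diffAt hG hp).comp w ((differentiableAt_const z).prodMk differentiableAt_id)

include hG in
theorem diff_fst {z w : ℂ} (hp : (z, w) ∈ Om) : DifferentiableAt ℂ (fun s => G (s, w)) z :=
  (diffAt hG hp).comp z (differentiableAt_id.prodMk (differentiableAt_const w))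

theorem ball_half {z : ℂ} {R : ℝ} (hz : ‖z‖ ≤ R / 2) : ball z (R / 2) ⊆ ball 0 R := by
  intro y hy
  rw [mem_ball, dist_eq_norm] at hy
  rw [mem_ball_zero_iff]
  calc ‖y‖ = ‖(y - z) + z‖ := by ring_nf
    _ ≤ ‖y - z‖ + ‖z‖ := norm_add_le _ _
    _ < R := by linarith

include hM in
theorem axis_zero (z : ℂ) : G (z, 0) = 0 := by
  have ht : Tendsto (fun n : ℕ => rho n / 2 * rr n) atTop atTop := by
    refine ((exp_quad_tendsto (a := 3) (by norm_num) 1).atTop_div_const
      (show (0 : ℝ) < 2 by norm_num)).congr fun n => ?_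
    rw [rho, rr, div_mul_eq_mul_div, ← Real.exp_add]
    congr 2; ring
  have := zero_of_bound (norm_nonneg (G (z, 0))) (M := M) ht ?_
  · simpa using this
  filter_upwards [rho_tendsto.eventually_ge_atTop (2 * ‖z‖)] with n hn
  refine hM z 0 _ _ (half_pos (rho_pos n)) (rr_pos n) ?_
  have hz : ‖z‖ ≤ rho n / 2 := by linarith
  exact (Set.prod_mono (ball_half hz) Subset.rfl).trans (flat_subset n)

include hG hM in
theorem fibre_second (k : ℕ) (w : ℂ) : iteratedDeriv 2 (fun s => G (ctr k, s)) w = 0 := by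
  have hF : Differentiable ℂ (fun s => G (ctr k, s)) := fun s => diff_snd hG (fibre_mem k s)
  have ht : Tendsto (fun n : ℕ => eps n * (hh n / 2) * (hh n / 4) ^ 2) atTop atTop := by
    refine ((exp_quad_tendsto (a := 1) (by norm_num) 1).atTop_div_const
      (show (0 : ℝ) < 32 by norm_num)).congr fun n => ?_
    have : Real.exp (1 * (n : ℝ) ^ 2 - 1 * n) = eps n * hh n * hh n * hh n := by
      rw [eps, hh, ← Real.exp_add, ← Real.exp_add, ← Real.exp_add]
      congr 1; ring
    rw [this]; ring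
  have := zero_of_bound (norm_nonneg (iteratedDeriv 2 (fun s => G (ctr k, s)) w)) (M := 2 * M)
    (ht.comp (pair_tendsto k)) ?_
  · simpa using this
  filter_upwards [(hh_tendsto.comp (pair_tendsto k)).eventually_ge_atTop (4 * ‖w‖)] with m hm
  set n := Nat.pair k m with hn
  have hm' : 4 * ‖w‖ ≤ hh n := hm
  have he := eps_pos n
  have hH := hh_pos n
  have hb : ∀ s ∈ sphere w (hh n / 4), ‖G (ctr k, s)‖ ≤ M / (eps n * (hh n / 2)) := by
    intro s hs
    rw [le_div_iff₀ (by positivity)]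
    refine hM _ _ _ _ he (half_pos hH) ?_
    refine (Set.prod_mono ?_ (ball_half ?_)).trans (tall_subset n)
    · rw [hn, Nat.unpair_pair]
    · rw [mem_sphere, dist_eq_norm] at hs
      calc ‖s‖ = ‖(s - w) + w‖ := by ring_nf
        _ ≤ ‖s - w‖ + ‖w‖ := norm_add_le _ _
        _ ≤ hh n / 2 := by linarith
  have h1 := Complex.norm_iteratedDeriv_le_of_forall_mem_sphere_norm_le 2
    (show 0 < hh n / 4 by positivity) hF.diffContOnCl hb
  rw [le_div_iff₀ (by positivity)] at h1
  show _ * (eps n * (hh n / 2) * (hh n / 4) ^ 2) ≤ _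
  have h2 : ((Nat.factorial 2 : ℕ) : ℝ) * (M / (eps n * (hh n / 2))) * (eps n * (hh n / 2)) = 2 * M := by
    field_simp
    norm_num [mul_comm]
  calc _ = (‖iteratedDeriv 2 (fun s => G (ctr k, s)) w‖ * (hh n / 4) ^ 2) * (eps n * (hh n / 2)) := by
        ring
    _ ≤ _ := mul_le_mul_of_nonneg_right h1 (by positivity)
    _ = 2 * M := h2

include hG hM in
theorem fibre_linear (k : ℕ) (w : ℂ) :
    G (ctr k, w) = w * deriv (fun s => G (ctr k, s)) 0 := by
  have hF : Differentiable ℂ (fun s => G (ctr k, s)) := fun s => diff_snd hG (fibre_mem k s)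
  have hF' : Differentiable ℂ (deriv fun s => G (ctr k, s)) := hF.deriv
  have h2 : ∀ s, deriv (deriv fun s => G (ctr k, s)) s = 0 := by
    intro s
    have := fibre_second hG hM k s
    rwa [iteratedDeriv_succ, iteratedDeriv_one] at this
  have hc := is_const_of_deriv_eq_zero hF' h2
  set c := deriv (fun s => G (ctr k, s)) 0 with hcdef
  have h3 : Differentiable ℂ (fun s => G (ctr k, s) - s * c) := hF.sub (by fun_prop)
  have h4 : ∀ s, deriv (fun s => G (ctr k, s) - s * c) s = 0 := by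
    intro s
    have h5 : HasDerivAt (fun s => G (ctr k, s) - s * c)
        (deriv (fun s => G (ctr k, s)) s - 1 * c) s :=
      (hF s).hasDerivAt.sub ((hasDerivAt_id s).mul_const c)
    rw [h5.deriv, hc s 0, one_mul, sub_self]
  have h6 := is_const_of_deriv_eq_zero h3 h4 w 0
  simp only [zero_mul, sub_zero, axis_zero hM] at h6
  exact sub_eq_zero.1 h6

theorem ctr_tendsto : Tendsto ctr atTop (𝓝[≠] 0) := by
  rw [tendsto_nhdsWithin_iff]
  constructor
  · rw [tendsto_zero_iff_norm_tendsto_zero]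
    refine tendsto_one_div_add_atTop_nhds_zero_nat.congr fun k => ?_
    rw [ctr, norm_div, norm_one]
    congr 1
    exact_mod_cast (Complex.norm_natCast (k + 1)).symm
  · refine Eventually.of_forall fun k => ?_
    have : ((k : ℂ) + 1) ≠ 0 := by exact_mod_cast Nat.succ_ne_zero k
    simpa [ctr] using this

include hG hM in
theorem flat_linear (n : ℕ) {z s t : ℂ} (hz : z ∈ ball (0 : ℂ) (rho n)) (hs : s ∈ ball (0 : ℂ) (rr n))
    (ht : t ∈ ball (0 : ℂ) (rr n)) : s * G (z, t) = t * G (z, s) := by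
  have hd : ∀ u ∈ ball (0 : ℂ) (rr n), DifferentiableOn ℂ (fun y => G (y, u)) (ball 0 (rho n)) :=
    fun u hu y hy => (diff_fst hG (flat_subset n ⟨hy, hu⟩)).differentiableWithinAt
  have h1 : AnalyticOnNhd ℂ (fun y => s * G (y, t)) (ball 0 (rho n)) :=
    ((hd t ht).const_mul s).analyticOnNhd isOpen_ball
  have h2 : AnalyticOnNhd ℂ (fun y => t * G (y, s)) (ball 0 (rho n)) :=
    ((hd s hs).const_mul t).analyticOnNhd isOpen_ball
  refine h1.eqOn_of_preconnected_of_frequently_eq h2 (convex_ball _ _).isPreconnected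
    (mem_ball_self (rho_pos n)) ?_ hz
  refine ctr_tendsto.frequently (Frequently.of_forall fun k => ?_)
  rw [fibre_linear hG hM k t, fibre_linear hG hM k s]
  ring

theorem half_mem (n : ℕ) : (((rr n / 2 : ℝ)) : ℂ) ∈ ball (0 : ℂ) (rr n) := by
  have := rr_pos n
  rw [mem_ball_zero_iff, Complex.norm_real, Real.norm_eq_abs, abs_of_pos (by positivity)]
  linarith

theorem half_ne (n : ℕ) : (((rr n / 2 : ℝ)) : ℂ) ≠ 0 := by
  have := rr_pos n
  exact_mod_cast (by positivity : rr n / 2 ≠ 0)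

include hG hM in
theorem flat_deriv (n : ℕ) {z s : ℂ} (hz : z ∈ ball (0 : ℂ) (rho n)) (hs : s ∈ ball (0 : ℂ) (rr n)) :
    G (z, s) = s * deriv (fun y => G (z, y)) 0 := by
  have hne := half_ne n
  have key : ∀ y ∈ ball (0 : ℂ) (rr n),
      G (z, y) = y * (G (z, ((rr n / 2 : ℝ) : ℂ)) / ((rr n / 2 : ℝ) : ℂ)) := by
    intro y hy
    have := flat_linear hG hM n hz hy (half_mem n)
    field_simp
    rw [this, mul_comm]
  have hev : (fun y => G (z, y)) =ᶠ[𝓝 0]
      fun y => y * (G (z, ((rr n / 2 : ℝ) : ℂ)) / ((rr n / 2 : ℝ) : ℂ)) := by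
    filter_upwards [ball_mem_nhds (0 : ℂ) (rr_pos n)] with y hy using key y hy
  rw [hev.deriv_eq, key s hs]
  simp

include hG hM in
theorem coeff_const : ∃ c : ℂ, ∀ z, deriv (fun y => G (z, y)) 0 = c := by
  set u : ℂ → ℂ := fun z => deriv (fun y => G (z, y)) 0 with hu
  have hform : ∀ n, ∀ z ∈ ball (0 : ℂ) (rho n),
      u z = G (z, ((rr n / 2 : ℝ) : ℂ)) / ((rr n / 2 : ℝ) : ℂ) := by
    intro n z hz
    have := flat_deriv hG hM n hz (half_mem n)
    have hne := half_ne n
    rw [this]; field_simp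
    rfl
  have hdiff : Differentiable ℂ u := by
    intro z
    obtain ⟨n, hn⟩ := (rho_tendsto.eventually_gt_atTop ‖z‖).exists
    have hz : z ∈ ball (0 : ℂ) (rho n) := by simpa using hn
    have hev : u =ᶠ[𝓝 z] fun y => G (y, ((rr n / 2 : ℝ) : ℂ)) / ((rr n / 2 : ℝ) : ℂ) := by
      filter_upwards [isOpen_ball.mem_nhds hz] with y hy using hform n y hy
    exact ((diff_fst hG (flat_subset n ⟨hz, half_mem n⟩)).div_const _).congr_of_eventuallyEq hev
  have hder : ∀ z, deriv u z = 0 := by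
    intro z
    have ht : Tendsto (fun n : ℕ => rho n / 2 * (rr n / 2) * (rr n / 2) * (rho n / 4)) atTop atTop := by
      refine ((exp_quad_tendsto (a := 6) (by norm_num) 2).atTop_div_const
        (show (0 : ℝ) < 32 by norm_num)).congr fun n => ?_
      have : Real.exp (6 * (n : ℝ) ^ 2 - 2 * n) = rho n * rr n * rr n * rho n := by
        rw [rho, rr, ← Real.exp_add, ← Real.exp_add, ← Real.exp_add]
        congr 1; ring
      rw [this]; ring
    have := zero_of_bound (norm_nonneg (deriv u z)) (M := M) ht ?_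
    · simpa using this
    filter_upwards [rho_tendsto.eventually_ge_atTop (4 * ‖z‖)] with n hn
    have hρ := rho_pos n
    have hr := rr_pos n
    have hb : ∀ s ∈ sphere z (rho n / 4), ‖u s‖ ≤ M / (rho n / 2 * (rr n / 2) * (rr n / 2)) := by
      intro s hs
      have hs' : ‖s‖ ≤ rho n / 2 := by
        rw [mem_sphere, dist_eq_norm] at hs
        calc ‖s‖ = ‖(s - z) + z‖ := by ring_nf
          _ ≤ ‖s - z‖ + ‖z‖ := norm_add_le _ _
          _ ≤ rho n / 2 := by linarith
      have hnorm : ‖(((rr n / 2 : ℝ)) : ℂ)‖ = rr n / 2 := by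
        rw [Complex.norm_real, Real.norm_eq_abs, abs_of_pos (by positivity)]
      have h1 := hM s ((rr n / 2 : ℝ) : ℂ) (rho n / 2) (rr n / 2) (by positivity) (by positivity)
        ((Set.prod_mono (ball_half hs') (ball_half hnorm.le)).trans (flat_subset n))
      rw [hform n s (by rw [mem_ball_zero_iff]; linarith), norm_div, hnorm,
        div_le_div_iff₀ (by positivity) (by positivity)]
      calc _ = (‖G (s, ((rr n / 2 : ℝ) : ℂ))‖ * (rho n / 2 * (rr n / 2))) * (rr n / 2) := by ring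
        _ ≤ _ := mul_le_mul_of_nonneg_right h1 (by positivity)
    have h1 := Complex.norm_deriv_le_of_forall_mem_sphere_norm_le
      (show 0 < rho n / 4 by positivity) hdiff.diffContOnCl hb
    rw [div_div, le_div_iff₀ (by positivity)] at h1
    exact h1
  exact ⟨u 0, fun z => is_const_of_deriv_eq_zero hdiff hder z 0⟩

include hG hM in
/-- every holomorphic function on the domain with the mean value bound is a multiple of the second
coordinate -/
theorem classify : ∃ c : ℂ, ∀ p ∈ Om, G p = c * p.2 := by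
  obtain ⟨c, hc⟩ := coeff_const hG hM
  refine ⟨c, ?_⟩
  have key : ∀ (z : ℂ) (T : ℝ), 0 < T → (∀ w ∈ ball (0 : ℂ) T, (z, w) ∈ Om) →
      ∀ w ∈ ball (0 : ℂ) T, G (z, w) = c * w := by
    intro z T hT hsub w hw
    have h1 : AnalyticOnNhd ℂ (fun y => G (z, y)) (ball 0 T) :=
      DifferentiableOn.analyticOnNhd
        (fun y hy => (diff_snd hG (hsub y hy)).differentiableWithinAt) isOpen_ball
    have h2 : AnalyticOnNhd ℂ (fun y : ℂ => c * y) (ball 0 T) :=
      DifferentiableOn.analyticOnNhd (by fun_prop) isOpen_ball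
    refine h1.eqOn_of_preconnected_of_eventuallyEq h2 (convex_ball _ _).isPreconnected
      (mem_ball_self hT) ?_ hw
    obtain ⟨n, hn⟩ := (rho_tendsto.eventually_gt_atTop ‖z‖).exists
    have hz : z ∈ ball (0 : ℂ) (rho n) := by simpa using hn
    filter_upwards [ball_mem_nhds (0 : ℂ) (rr_pos n)] with y hy
    rw [flat_deriv hG hM n hz hy, hc, mul_comm]
  rintro ⟨z, w⟩ (hp | hp)
  · obtain ⟨n, hz, hw⟩ := mem_iUnion.1 hp
    exact key z _ (rr_pos n) (fun y hy => flat_subset n ⟨hz, hy⟩) w hw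
  · obtain ⟨n, hz, hw⟩ := mem_iUnion.1 hp
    exact key z _ (hh_pos n) (fun y hy => tall_subset n ⟨hz, hy⟩) w hw

end

theorem isConnected_Om : IsConnected Om := by
  refine ⟨⟨_, axis_mem 0⟩, isPreconnected_of_forall ((0 : ℂ), (0 : ℂ)) ?_⟩
  have hax : IsPreconnected ((univ : Set ℂ) ×ˢ ({0} : Set ℂ)) :=
    isPreconnected_univ.prod isPreconnected_singleton
  have key : ∀ (a : ℂ) (R T : ℝ), 0 < R → 0 < T → ball a R ×ˢ ball (0 : ℂ) T ⊆ Om →
      ∀ y ∈ ball a R ×ˢ ball (0 : ℂ) T,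
      ∃ t, t ⊆ Om ∧ ((0 : ℂ), (0 : ℂ)) ∈ t ∧ y ∈ t ∧ IsPreconnected t := by
    intro a R T hR hT hsub y hy
    refine ⟨((univ : Set ℂ) ×ˢ ({0} : Set ℂ)) ∪ ball a R ×ˢ ball (0 : ℂ) T, ?_, Or.inl ⟨trivial, rfl⟩,
      Or.inr hy, ?_⟩
    · rintro ⟨z, w⟩ (⟨_, hw⟩ | h)
      · have : w = 0 := hw
        rw [this]; exact axis_mem z
      · exact hsub h
    · exact IsPreconnected.union (a, (0 : ℂ)) ⟨trivial, rfl⟩ ⟨mem_ball_self hR, mem_ball_self hT⟩ hax
        ((convex_ball _ _).isPreconnected.prod (convex_ball _ _).isPreconnected)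
  rintro y (hp | hp)
  · obtain ⟨n, hn⟩ := mem_iUnion.1 hp
    exact key _ _ _ (rho_pos n) (rr_pos n) (flat_subset n) y hn
  · obtain ⟨n, hn⟩ := mem_iUnion.1 hp
    exact key _ _ _ (eps_pos n) (hh_pos n) (tall_subset n) y hn

end Pool.Agent.H774Z.Berg
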