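import Pool.Agent.H774Z.Berg.Meas

set_option autoImplicit false

namespace Pool.Agent.H774Z.Berg

open Filter Topology Set Metric MeasureTheory

section abstract
variable {X : Type*} [MeasurableSpace X] {μ : Measure X}

theorem integrable_mul_conj {f h : X → ℂ} (hf : MemLp f 2 μ) (hh : MemLp h 2 μ) :
    Integrable (fun x => f x * (starRingEnd ℂ) (h x)) μ := by
  have h1 : MemLp (star h) 2 μ := hh.star
  have h2 : MemLp (fun x => f x * (star h) x) 1 μ := MemLp.mul' h1 hf
  exact memLp_one_iff_integrable.1 h2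

theorem split_inner {f h : X → ℂ} (hf : MemLp f 2 μ) (hh : MemLp h 2 μ) (c : ℂ) :
    ∫ x, (f x - c * h x) * (starRingEnd ℂ) (h x) ∂μ =
      ∫ x, f x * (starRingEnd ℂ) (h x) ∂μ - c * ∫ x, h x * (starRingEnd ℂ) (h x) ∂μ := by
  rw [← integral_const_mul, ← integral_sub (integrable_mul_conj hf hh)
    ((integrable_mul_conj hh hh).const_mul c)]
  congr 1; ext x; ring

theorem holder_inner {f h : X → ℂ} {p q : ℝ} (hpq : p.HolderConjugate q)
    (hf : AEStronglyMeasurable f μ) (hh : AEStronglyMeasurable h μ) :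
    ‖∫ x, f x * (starRingEnd ℂ) (h x) ∂μ‖ₑ ≤
      eLpNorm f (ENNReal.ofReal p) μ * eLpNorm h (ENNReal.ofReal q) μ := by
  have := hpq.ennrealOfReal
  refine (enorm_integral_le_lintegral_enorm _).trans ?_
  rw [← eLpNorm_one_eq_lintegral_enorm]
  have := eLpNorm_le_eLpNorm_mul_eLpNorm'_of_norm (p := ENNReal.ofReal p) (q := ENNReal.ofReal q)
    (r := 1) hf hh (fun a b : ℂ => a * (starRingEnd ℂ) b) 1
    (Eventually.of_forall fun x => by simp)
  simpa using this

end abstract

/-- the preimage in `Fin 2 → ℂ` of a set of pairs -/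
def lift (U : Set (ℂ × ℂ)) : Set (Fin 2 → ℂ) := {x | (x 0, x 1) ∈ U}

theorem lint_lift (U : Set (ℂ × ℂ)) (F : ℂ × ℂ → ENNReal) :
    ∫⁻ x in lift U, F (x 0, x 1) = ∫⁻ p in U, F p :=
  (volume_preserving_finTwoArrow ℂ).setLIntegral_comp_preimage_emb
    (MeasurableEquiv.measurableEmbedding _) F U

theorem isOpen_lift {U : Set (ℂ × ℂ)} (hU : IsOpen U) : IsOpen (lift U) :=
  hU.preimage (f := fun x : Fin 2 → ℂ => (x 0, x 1)) (by fun_prop)

theorem isConnected_lift : IsConnected (lift Om) := by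
  have : lift Om = (fun p : ℂ × ℂ => (![p.1, p.2] : Fin 2 → ℂ)) '' Om := by
    ext x
    constructor
    · intro hx
      refine ⟨(x 0, x 1), hx, ?_⟩
      ext i; fin_cases i <;> rfl
    · rintro ⟨p, hp, rfl⟩
      exact hp
  rw [this]
  exact isConnected_Om.image _ (Continuous.continuousOn (by fun_prop))

theorem snd_memLp_iff (U : Set (ℂ × ℂ)) {p : ℝ} (hp : 0 < p) :
    MemLp (fun x : Fin 2 → ℂ => x 1) (ENNReal.ofReal p) (volume.restrict (lift U)) ↔
      ∫⁻ q in U, ENNReal.ofReal (‖q.2‖ ^ p) ≠ ⊤ := by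
  have hm : AEStronglyMeasurable (fun x : Fin 2 → ℂ => x 1) (volume.restrict (lift U)) :=
    (continuous_apply 1).aestronglyMeasurable
  rw [← lint_lift U (fun q => ENNReal.ofReal (‖q.2‖ ^ p)), MemLp, and_iff_right hm,
    eLpNorm_lt_top_iff_lintegral_rpow_enorm_lt_top (by simpa using hp) ENNReal.ofReal_ne_top,
    ENNReal.toReal_ofReal hp.le, lt_top_iff_ne_top]
  simp only [← ENNReal.ofReal_rpow_of_nonneg (norm_nonneg _) hp.le, ofReal_norm]

theorem snd_memLp {p : ℝ} (h1 : 3 / 2 ≤ p) (h2 : p ≤ 3) :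
    MemLp (fun x : Fin 2 → ℂ => x 1) (ENNReal.ofReal p) (volume.restrict (lift Om)) :=
  (snd_memLp_iff Om (by linarith)).2 (moment_finite h1 h2)

theorem snd_memL2 : MemLp (fun x : Fin 2 → ℂ => x 1) 2 (volume.restrict (lift Om)) := by
  have := snd_memLp (p := 2) (by norm_num) (by norm_num)
  simpa using this

theorem bergman_space {g : (Fin 2 → ℂ) → ℂ} (hg : DifferentiableOn ℂ g (lift Om))
    (h2 : MemLp g 2 (volume.restrict (lift Om))) : ∃ c : ℂ, ∀ x ∈ lift Om, g x = c * x 1 := by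
  let e : ℂ × ℂ → (Fin 2 → ℂ) := fun p => ![p.1, p.2]
  have he : Differentiable ℂ e := by
    rw [differentiable_pi]
    intro i; fin_cases i
    · exact differentiable_fst
    · exact differentiable_snd
  have hex : ∀ x : Fin 2 → ℂ, e (x 0, x 1) = x := by
    intro x; ext i; fin_cases i <;> rfl
  have hG : DifferentiableOn ℂ (g ∘ e) Om := hg.comp he.differentiableOn (fun p hp => hp)
  have hT : ∫⁻ p in Om, ENNReal.ofReal (‖(g ∘ e) p‖ ^ 2) ≠ ⊤ := by
    rw [← lint_lift Om (fun p => ENNReal.ofReal (‖(g ∘ e) p‖ ^ 2))]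
    have h3 := (eLpNorm_lt_top_iff_lintegral_rpow_enorm_lt_top (by norm_num) (by norm_num)).1 h2.2
    refine ne_of_eq_of_ne ?_ h3.ne
    congr 1; ext x
    simp only [Function.comp, hex, ENNReal.toReal_ofNat]
    rw [ENNReal.ofReal_pow (norm_nonneg _), ofReal_norm, ENNReal.rpow_ofNat]
  obtain ⟨c, hc⟩ := classify hG (mean_two hG hT)
  refine ⟨c, fun x hx => ?_⟩
  have := hc _ hx
  simpa [Function.comp, hex] using this

theorem inner_ne_zero {U : Set (ℂ × ℂ)} (hU : flat 0 ⊆ U)
    (h2 : MemLp (fun x : Fin 2 → ℂ => x 1) 2 (volume.restrict (lift U))) :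
    ∫ x in lift U, x 1 * (starRingEnd ℂ) (x 1) ≠ 0 := by
  have h1 : ∀ x : Fin 2 → ℂ, x 1 * (starRingEnd ℂ) (x 1) = ((‖x 1‖ ^ 2 : ℝ) : ℂ) := by
    intro x; rw [Complex.mul_conj, Complex.normSq_eq_norm_sq]
  simp only [h1]
  rw [integral_complex_ofReal]
  have hint : Integrable (fun x : Fin 2 → ℂ => ‖x 1‖ ^ 2) (volume.restrict (lift U)) :=
    (memLp_two_iff_integrable_sq_norm h2.1).1 h2
  have h3 := ofReal_integral_eq_lintegral_ofReal hint (Eventually.of_forall fun x => by positivity)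
  rw [lint_lift U (fun q => ENNReal.ofReal (‖q.2‖ ^ 2))] at h3
  have h4 := lower_poly 0 (rho_pos 0) (rr_pos 0) (show (0 : ℝ) ≤ 2 by norm_num) hU
  simp only [Real.rpow_ofNat] at h4
  rw [← h3] at h4
  intro h0
  have h0' : ∫ x in lift U, ‖x 1‖ ^ 2 = 0 := by exact_mod_cast h0
  rw [h0', ENNReal.ofReal_zero, nonpos_iff_eq_zero, ENNReal.ofReal_eq_zero] at h4
  have hρ := rho_pos 0
  have hr := rr_pos 0
  exact absurd h4 (not_le.2 (by positivity))

theorem test_memLp {p : ℝ} (hp : 0 < p) :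
    MemLp ((lift (flat 0)).indicator fun x : Fin 2 → ℂ => x 1) (ENNReal.ofReal p)
      (volume.restrict (lift Om)) := by
  have hK : MeasurableSet (lift (flat 0)) := (isOpen_lift (isOpen_ball.prod isOpen_ball)).measurableSet
  rw [memLp_indicator_iff_restrict hK, Measure.restrict_restrict hK,
    inter_eq_left.2 (show lift (flat 0) ⊆ lift Om from fun x hx => flat_subset 0 hx),
    snd_memLp_iff _ hp]
  exact ne_top_of_le_ne_top ENNReal.ofReal_ne_top (upper_poly 0 (rho_pos 0) (rr_pos 0) hp.le)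

theorem main (p : ℝ) (hp : 1 < p) :
      ((∃ C : ℝ, ∀ f g : (Fin 2 → ℂ) → ℂ,
          MemLp f 2 (volume.restrict (lift Om)) →
          MemLp f (ENNReal.ofReal p) (volume.restrict (lift Om)) →
          DifferentiableOn ℂ g (lift Om) →
          MemLp g 2 (volume.restrict (lift Om)) →
          (∀ h : (Fin 2 → ℂ) → ℂ, DifferentiableOn ℂ h (lift Om) →
            MemLp h 2 (volume.restrict (lift Om)) →
              ∫ z in lift Om, (f z - g z) * (starRingEnd ℂ) (h z) = 0) →
          eLpNorm g (ENNReal.ofReal p) (volume.restrict (lift Om))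
            ≤ ENNReal.ofReal C * eLpNorm f (ENNReal.ofReal p) (volume.restrict (lift Om)))
        ↔ (3 / 2 ≤ p ∧ p ≤ 3)) := by
  have hO : MeasurableSet (lift Om) := (isOpen_lift isOpen_Om).measurableSet
  have hN := inner_ne_zero (flat_subset 0) snd_memL2
  set N := ∫ x in lift Om, x 1 * (starRingEnd ℂ) (x 1) with hNdef
  have hd : ∀ c : ℂ, DifferentiableOn ℂ (fun x : Fin 2 → ℂ => c * x 1) (lift Om) :=
    fun c => by fun_prop
  have hsm : ∀ c : ℂ, eLpNorm (fun x : Fin 2 → ℂ => c * x 1) (ENNReal.ofReal p)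
      (volume.restrict (lift Om)) = ‖c‖ₑ * eLpNorm (fun x : Fin 2 → ℂ => x 1) (ENNReal.ofReal p)
      (volume.restrict (lift Om)) := fun c => eLpNorm_const_smul c _ _ _
  constructor
  · rintro ⟨C, hC⟩
    by_contra hcon
    have hK : MeasurableSet (lift (flat 0)) :=
      (isOpen_lift (isOpen_ball.prod isOpen_ball)).measurableSet
    set f : (Fin 2 → ℂ) → ℂ := (lift (flat 0)).indicator fun x : Fin 2 → ℂ => x 1 with hf
    have hf2 : MemLp f 2 (volume.restrict (lift Om)) := by
      simpa using test_memLp (p := 2) (by norm_num)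
    have hfp : MemLp f (ENNReal.ofReal p) (volume.restrict (lift Om)) := test_memLp (by linarith)
    have hsub : lift (flat 0) ⊆ lift Om := fun x hx => flat_subset 0 hx
    have hI : ∫ x in lift Om, f x * (starRingEnd ℂ) (x 1) ≠ 0 := by
      have e : (fun x : Fin 2 → ℂ => f x * (starRingEnd ℂ) (x 1)) =
          (lift (flat 0)).indicator fun x : Fin 2 → ℂ => x 1 * (starRingEnd ℂ) (x 1) := by
        ext x
        by_cases hx : x ∈ lift (flat 0) <;> simp [hf, hx]
      rw [e, integral_indicator hK, Measure.restrict_restrict hK, inter_eq_left.2 hsub]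
      exact inner_ne_zero Subset.rfl (snd_memL2.mono_measure (Measure.restrict_mono hsub le_rfl))
    set c := (∫ x in lift Om, f x * (starRingEnd ℂ) (x 1)) / N with hc
    have hc0 : c ≠ 0 := div_ne_zero hI hN
    have hb := hC f (fun x => c * x 1) hf2 hfp (hd c) (snd_memL2.const_mul c) (by
      intro h hh hh2
      obtain ⟨d, hd'⟩ := bergman_space hh hh2
      have e : ∫ z in lift Om, (f z - c * z 1) * (starRingEnd ℂ) (h z) =
          ∫ z in lift Om, (starRingEnd ℂ) d * ((f z - c * z 1) * (starRingEnd ℂ) (z 1)) := by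
        refine setIntegral_congr_fun hO fun z hz => ?_
        simp only [hd' z hz, map_mul]; ring
      rw [e, integral_const_mul, split_inner hf2 snd_memL2 c, ← hNdef, hc, div_mul_cancel₀ _ hN,
        sub_self, mul_zero])
    rw [hsm] at hb
    have hfin : ‖c‖ₑ * eLpNorm (fun x : Fin 2 → ℂ => x 1) (ENNReal.ofReal p)
        (volume.restrict (lift Om)) ≠ ⊤ :=
      ne_top_of_le_ne_top (ENNReal.mul_ne_top ENNReal.ofReal_ne_top hfp.2.ne) hb
    have hfin2 : eLpNorm (fun x : Fin 2 → ℂ => x 1) (ENNReal.ofReal p)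
        (volume.restrict (lift Om)) ≠ ⊤ := by
      intro h
      rw [h, ENNReal.mul_top (by simpa using hc0)] at hfin
      exact hfin rfl
    have hmem : MemLp (fun x : Fin 2 → ℂ => x 1) (ENNReal.ofReal p) (volume.restrict (lift Om)) :=
      ⟨(continuous_apply 1).aestronglyMeasurable, lt_top_iff_ne_top.2 hfin2⟩
    refine (snd_memLp_iff Om (by linarith)).1 hmem (moment_infinite (by linarith) ?_)
    by_contra h
    push Not at h
    exact hcon h
  · rintro ⟨h1, h2⟩
    have hpq : p.HolderConjugate (p / (p - 1)) := Real.HolderConjugate.conjExponent hp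
    have hp1 : 0 < p - 1 := by linarith
    have hq1 : 3 / 2 ≤ p / (p - 1) := by rw [le_div_iff₀ hp1]; linarith
    have hq2 : p / (p - 1) ≤ 3 := by rw [div_le_iff₀ hp1]; linarith
    have hA := (snd_memLp h1 h2).2
    have hB := (snd_memLp hq1 hq2).2
    set A := eLpNorm (fun x : Fin 2 → ℂ => x 1) (ENNReal.ofReal p) (volume.restrict (lift Om))
      with hAdef
    set B := eLpNorm (fun x : Fin 2 → ℂ => x 1) (ENNReal.ofReal (p / (p - 1)))
      (volume.restrict (lift Om)) with hBdef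
    have hfin : ‖N⁻¹‖ₑ * B * A ≠ ⊤ :=
      ENNReal.mul_ne_top (ENNReal.mul_ne_top enorm_ne_top hB.ne) hA.ne
    refine ⟨(‖N⁻¹‖ₑ * B * A).toReal, fun f g hf2 hfp hg hg2 horth => ?_⟩
    rw [ENNReal.ofReal_toReal hfin]
    obtain ⟨c, hc⟩ := bergman_space hg hg2
    have hae : g =ᵐ[volume.restrict (lift Om)] fun x => c * x 1 :=
      (ae_restrict_iff' hO).2 (Eventually.of_forall hc)
    rw [eLpNorm_congr_ae hae, hsm]
    have h3 := horth (fun x => x 1) (by fun_prop) snd_memL2
    have e : ∫ z in lift Om, (f z - g z) * (starRingEnd ℂ) (z 1) =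
        ∫ z in lift Om, (f z - c * z 1) * (starRingEnd ℂ) (z 1) := by
      refine setIntegral_congr_fun hO fun z hz => ?_
      simp only [hc z hz]
    rw [e, split_inner hf2 snd_memL2 c, ← hNdef, sub_eq_zero] at h3
    have h4 : c = N⁻¹ * ∫ z in lift Om, f z * (starRingEnd ℂ) (z 1) := by
      rw [h3]; field_simp
    have h5 := holder_inner (μ := volume.restrict (lift Om)) hpq hf2.1 snd_memL2.1
    rw [h4, enorm_mul]
    calc _ ≤ ‖N⁻¹‖ₑ * (eLpNorm f (ENNReal.ofReal p) (volume.restrict (lift Om)) * B) * A := by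
          gcongr
      _ = _ := by ring

end Pool.Agent.H774Z.Berg
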