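import Pool.Agent.H774Z.Berg.Classify
import Pool.Agent.Helper620.Wg.G23

set_option autoImplicit false

namespace Pool.Agent.H774Z.Berg

open Filter Topology Set Metric MeasureTheory

theorem mean_two {U : Set (ℂ × ℂ)} {G : ℂ × ℂ → ℂ} (hG : DifferentiableOn ℂ G U)
    (hT : ∫⁻ p in U, ENNReal.ofReal (‖G p‖ ^ 2) ≠ ⊤) (a b : ℂ) (ρ r : ℝ) (hρ : 0 < ρ) (hr : 0 < r)
    (hsub : ball a ρ ×ˢ ball b r ⊆ U) :
    ‖G (a, b)‖ * (ρ * r) ≤ Real.sqrt (∫⁻ p in U, ENNReal.ofReal (‖G p‖ ^ 2)).toReal := by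
  have hpi := Real.pi_gt_three
  have hopen : IsOpen (ball a ρ ×ˢ ball b r) := isOpen_ball.prod isOpen_ball
  have hG' : DifferentiableOn ℂ G (ball a ρ ×ˢ ball b r) := hG.mono hsub
  have hat : ∀ p ∈ ball a ρ ×ˢ ball b r, DifferentiableAt ℂ G p :=
    fun p hp => hG'.differentiableAt (hopen.mem_nhds hp)
  have h1 := Wg.removable_L2_mean (h := fun z => G (z, b)) (s := a) hρ (fun z hz =>
    ((hat (z, b) ⟨hz, mem_ball_self hr⟩).comp z
      (differentiableAt_id.prodMk (differentiableAt_const b))).differentiableWithinAt)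
  have h2 : ∀ z ∈ ball a ρ, ENNReal.ofReal (‖G (z, b)‖ ^ 2) ≤
      ENNReal.ofReal (1 / (Real.pi * r ^ 2)) * ∫⁻ w in ball b r, ENNReal.ofReal (‖G (z, w)‖ ^ 2) :=
    fun z hz => Wg.removable_L2_mean (h := fun w => G (z, w)) (s := b) hr (fun w hw =>
      ((hat (z, w) ⟨hz, hw⟩).comp w
        ((differentiableAt_const z).prodMk differentiableAt_id)).differentiableWithinAt)
  have hmeas : AEMeasurable (fun p => ENNReal.ofReal (‖G p‖ ^ 2))
      ((volume.restrict (ball a ρ)).prod (volume.restrict (ball b r))) := by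
    rw [Measure.prod_restrict, ← Measure.volume_eq_prod]
    have hc : ContinuousOn (fun p => ‖G p‖ ^ 2) (ball a ρ ×ˢ ball b r) :=
      (hG'.continuousOn.norm).pow 2
    exact (hc.aemeasurable hopen.measurableSet).ennreal_ofReal
  have h3 : ∫⁻ z in ball a ρ, ∫⁻ w in ball b r, ENNReal.ofReal (‖G (z, w)‖ ^ 2) ≤
      ∫⁻ p in U, ENNReal.ofReal (‖G p‖ ^ 2) := by
    rw [← lintegral_prod _ hmeas, Measure.prod_restrict, ← Measure.volume_eq_prod]
    exact lintegral_mono_set hsub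
  have h4 : ∫⁻ z in ball a ρ, ENNReal.ofReal (‖G (z, b)‖ ^ 2) ≤
      ENNReal.ofReal (1 / (Real.pi * r ^ 2)) * ∫⁻ p in U, ENNReal.ofReal (‖G p‖ ^ 2) := by
    refine le_trans (setLIntegral_mono' measurableSet_ball h2) ?_
    rw [lintegral_const_mul' _ _ ENNReal.ofReal_ne_top]
    gcongr
  set T := ∫⁻ p in U, ENNReal.ofReal (‖G p‖ ^ 2) with hTdef
  have h5 : ENNReal.ofReal (‖G (a, b)‖ ^ 2) ≤
      ENNReal.ofReal (1 / (Real.pi * ρ ^ 2) * (1 / (Real.pi * r ^ 2) * T.toReal)) := by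
    rw [ENNReal.ofReal_mul (by positivity), ENNReal.ofReal_mul (by positivity),
      ENNReal.ofReal_toReal hT]
    refine h1.trans ?_
    gcongr
  rw [ENNReal.ofReal_le_ofReal_iff (by positivity)] at h5
  apply Real.le_sqrt_of_sq_le
  have h6 : 1 / (Real.pi * ρ ^ 2) * (1 / (Real.pi * r ^ 2) * T.toReal) * (ρ * r) ^ 2
      = T.toReal / Real.pi ^ 2 := by
    field_simp
  have h7 : T.toReal / Real.pi ^ 2 ≤ T.toReal :=
    div_le_self ENNReal.toReal_nonneg (by nlinarith)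
  calc (‖G (a, b)‖ * (ρ * r)) ^ 2 = ‖G (a, b)‖ ^ 2 * (ρ * r) ^ 2 := by ring
    _ ≤ _ := mul_le_mul_of_nonneg_right h5 (by positivity)
    _ = _ := h6
    _ ≤ _ := h7

theorem volume_poly (a b : ℂ) {R T : ℝ} (hR : 0 < R) (hT : 0 < T) :
    volume (ball a R ×ˢ ball b T) = ENNReal.ofReal (Real.pi ^ 2 * (R ^ 2 * T ^ 2)) := by
  rw [Measure.volume_eq_prod, Measure.prod_prod, Complex.volume_ball, Complex.volume_ball]
  have : ((NNReal.pi : NNReal) : ENNReal) = ENNReal.ofReal Real.pi := by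
    rw [← NNReal.coe_real_pi, ENNReal.ofReal_coe_nnreal]
  rw [this, ← ENNReal.ofReal_pow hR.le, ← ENNReal.ofReal_pow hT.le,
    ← ENNReal.ofReal_mul (by positivity), ← ENNReal.ofReal_mul (by positivity),
    ← ENNReal.ofReal_mul (by positivity)]
  congr 1; ring

theorem upper_poly (a : ℂ) {R T p : ℝ} (hR : 0 < R) (hT : 0 < T) (hp : 0 ≤ p) :
    ∫⁻ q in ball a R ×ˢ ball (0 : ℂ) T, ENNReal.ofReal (‖q.2‖ ^ p) ≤
      ENNReal.ofReal (Real.pi ^ 2 * (R ^ 2 * T ^ 2 * T ^ p)) := by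
  have h1 : ∀ q ∈ ball a R ×ˢ ball (0 : ℂ) T, ENNReal.ofReal (‖q.2‖ ^ p) ≤ ENNReal.ofReal (T ^ p) := by
    intro q hq
    refine ENNReal.ofReal_le_ofReal (Real.rpow_le_rpow (norm_nonneg _) ?_ hp)
    exact (mem_ball_zero_iff.1 hq.2).le
  refine le_trans (setLIntegral_mono' (measurableSet_ball.prod measurableSet_ball) h1) ?_
  rw [setLIntegral_const, volume_poly a 0 hR hT, ← ENNReal.ofReal_mul (by positivity)]
  refine le_of_eq ?_
  congr 1; ring

theorem lower_poly (a : ℂ) {R T p : ℝ} (hR : 0 < R) (hT : 0 < T) (hp : 0 ≤ p) {U : Set (ℂ × ℂ)}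
    (hsub : ball a R ×ˢ ball (0 : ℂ) T ⊆ U) :
    ENNReal.ofReal ((1 / 4) ^ p / 16 * (R ^ 2 * T ^ 2 * T ^ p)) ≤
      ∫⁻ q in U, ENNReal.ofReal (‖q.2‖ ^ p) := by
  have hpi := Real.pi_gt_three
  have hn : ‖((T / 2 : ℝ) : ℂ)‖ = T / 2 := by
    rw [Complex.norm_real, Real.norm_eq_abs, abs_of_pos (by positivity)]
  have hs : ball a R ×ˢ ball ((T / 2 : ℝ) : ℂ) (T / 4) ⊆ U := by
    refine (Set.prod_mono Subset.rfl ?_).trans hsub
    exact (ball_subset_ball (by linarith)).trans (ball_half hn.le)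
  have h1 : ∀ q ∈ ball a R ×ˢ ball ((T / 2 : ℝ) : ℂ) (T / 4),
      ENNReal.ofReal ((T / 4) ^ p) ≤ ENNReal.ofReal (‖q.2‖ ^ p) := by
    intro q hq
    refine ENNReal.ofReal_le_ofReal (Real.rpow_le_rpow (by positivity) ?_ hp)
    have h2 := hq.2
    rw [mem_ball, dist_eq_norm] at h2
    have h3 := norm_sub_norm_le ((T / 2 : ℝ) : ℂ) q.2
    rw [norm_sub_rev, hn] at h3
    linarith
  refine le_trans ?_ (lintegral_mono_set hs)
  refine le_trans ?_ (setLIntegral_mono' (measurableSet_ball.prod measurableSet_ball) h1)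
  rw [setLIntegral_const, volume_poly a _ hR (by positivity), ← ENNReal.ofReal_mul (by positivity)]
  refine ENNReal.ofReal_le_ofReal ?_
  have h4 : (T / 4) ^ p = (1 / 4) ^ p * T ^ p := by
    rw [← Real.mul_rpow (by norm_num) hT.le]; congr 1; ring
  rw [h4]
  have h5 : 0 ≤ (1 / 4 : ℝ) ^ p / 16 * (R ^ 2 * T ^ 2 * T ^ p) := by positivity
  have h6 : (1 : ℝ) ≤ Real.pi ^ 2 := by nlinarith
  calc _ ≤ Real.pi ^ 2 * ((1 / 4 : ℝ) ^ p / 16 * (R ^ 2 * T ^ 2 * T ^ p)) := le_mul_of_one_le_left h5 h6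
    _ = _ := by ring

theorem flat_mass (n : ℕ) (p : ℝ) :
    rho n ^ 2 * rr n ^ 2 * rr n ^ p = Real.exp ((6 - 4 * p) * (n : ℝ) ^ 2 - 2 * n) := by
  rw [rho, rr, ← Real.exp_mul, ← Real.exp_nat_mul, ← Real.exp_nat_mul, ← Real.exp_add, ← Real.exp_add]
  congr 1; push_cast; ring

theorem tall_mass (n : ℕ) (p : ℝ) :
    eps n ^ 2 * hh n ^ 2 * hh n ^ p = Real.exp ((2 * p - 6) * (n : ℝ) ^ 2 - 2 * n) := by
  rw [eps, hh, ← Real.exp_mul, ← Real.exp_nat_mul, ← Real.exp_nat_mul, ← Real.exp_add, ← Real.exp_add]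
  congr 1; push_cast; ring

theorem tsum_small : ∑' n : ℕ, ENNReal.ofReal (Real.pi ^ 2 * Real.exp (-(n : ℝ))) ≠ ⊤ := by
  rw [← ENNReal.ofReal_tsum_of_nonneg (fun n => by positivity)
    (Real.summable_exp_neg_nat.mul_left _)]
  exact ENNReal.ofReal_ne_top

theorem moment_finite {p : ℝ} (h1 : 3 / 2 ≤ p) (h2 : p ≤ 3) :
    ∫⁻ q in Om, ENNReal.ofReal (‖q.2‖ ^ p) ≠ ⊤ := by
  have hp : 0 ≤ p := by linarith
  have hb : ∀ (n : ℕ) (c : ℝ), c ≤ 0 →
      ENNReal.ofReal (Real.pi ^ 2 * Real.exp (c * (n : ℝ) ^ 2 - 2 * n)) ≤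
        ENNReal.ofReal (Real.pi ^ 2 * Real.exp (-(n : ℝ))) := by
    intro n c hc
    refine ENNReal.ofReal_le_ofReal (mul_le_mul_of_nonneg_left (Real.exp_le_exp.2 ?_) (by positivity))
    have : (0 : ℝ) ≤ n := n.cast_nonneg
    nlinarith [mul_nonneg (neg_nonneg.2 hc) (sq_nonneg (n : ℝ))]
  refine ne_top_of_le_ne_top ?_ (lintegral_union_le _ _ _)
  refine ENNReal.add_ne_top.2 ⟨?_, ?_⟩
  · refine ne_top_of_le_ne_top tsum_small ((lintegral_iUnion_le _ _).trans ?_)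
    refine ENNReal.tsum_le_tsum fun n => ?_
    refine (upper_poly 0 (rho_pos n) (rr_pos n) hp).trans ?_
    rw [flat_mass]
    exact hb n _ (by linarith)
  · refine ne_top_of_le_ne_top tsum_small ((lintegral_iUnion_le _ _).trans ?_)
    refine ENNReal.tsum_le_tsum fun n => ?_
    refine (upper_poly _ (eps_pos n) (hh_pos n) hp).trans ?_
    rw [tall_mass]
    exact hb n _ (by linarith)

theorem moment_infinite {p : ℝ} (hp : 0 ≤ p) (h : p < 3 / 2 ∨ 3 < p) :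
    ∫⁻ q in Om, ENNReal.ofReal (‖q.2‖ ^ p) = ⊤ := by
  have key : ∀ c : ℝ, 0 < c →
      (∀ n : ℕ, ENNReal.ofReal ((1 / 4) ^ p / 16 * Real.exp (c * (n : ℝ) ^ 2 - 2 * n)) ≤
        ∫⁻ q in Om, ENNReal.ofReal (‖q.2‖ ^ p)) → ∫⁻ q in Om, ENNReal.ofReal (‖q.2‖ ^ p) = ⊤ := by
    intro c hc hle
    have ht := ENNReal.tendsto_ofReal_atTop.comp ((exp_quad_tendsto hc 2).const_mul_atTop
      (show (0 : ℝ) < (1 / 4) ^ p / 16 by positivity))
    exact top_le_iff.1 (le_of_tendsto' ht hle)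
  rcases h with h | h
  · refine key (6 - 4 * p) (by linarith) fun n => ?_
    rw [← flat_mass]
    exact lower_poly 0 (rho_pos n) (rr_pos n) hp (flat_subset n)
  · refine key (2 * p - 6) (by linarith) fun n => ?_
    rw [← tall_mass]
    exact lower_poly _ (eps_pos n) (hh_pos n) hp (tall_subset n)

end Pool.Agent.H774Z.Berg
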